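import Mathlib

/-!
# Lagrangian submanifolds of the cotangent bundles of spherical space forms: definitions

The cotangent bundle of the unit sphere of `ℝⁿ⁺¹` is the set `TS n` of the pairs `(q, p)` of vectors of
`ℝⁿ⁺¹` with `|q| = 1` and `⟪q, p⟫ = 0`; covectors are identified with tangent vectors by the scalar
product. The form `p dq` and the symplectic form `dp ∧ dq` of `ℝⁿ⁺¹ × ℝⁿ⁺¹` restrict to the Liouville form
and the symplectic form. Let `Γ` be a group of linear isometries. If `Γ` is finite and acts freely on the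
sphere, then `N = Sⁿ / Γ` is a closed manifold, `T*N = TS n / Γ`, and objects over `N` are given by their
lifts, which are invariant under `Γ`.
-/

set_option autoImplicit false

open Set Function
open scoped ContDiff RealInnerProductSpace

noncomputable section

namespace Pool.Agent.H75.SP

/-- the space `ℝᵐ` -/
abbrev E (m : ℕ) : Type := EuclideanSpace ℝ (Fin m)

/-- the pairs `(q, p)` of vectors of `ℝⁿ⁺¹` -/
abbrev W (n : ℕ) : Type := E (n + 1) × E (n + 1)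

/-- the linear isometries of `ℝⁿ⁺¹` -/
abbrev Isom (n : ℕ) : Type := E (n + 1) ≃ₗᵢ[ℝ] E (n + 1)

/-- the cotangent bundle of the unit sphere of `ℝⁿ⁺¹` -/
def TS (n : ℕ) : Set (W n) := {z | ‖z.1‖ = 1 ∧ ⟪z.1, z.2⟫ = 0}

/-- the symplectic form `dp ∧ dq` -/
def om {n : ℕ} (a b : W n) : ℝ := ⟪a.2, b.1⟫ - ⟪b.2, a.1⟫

/-- `v` is a tangent vector of `M` at `z`: the velocity of a smooth curve in `M` -/
def IsTangent {n : ℕ} (M : Set (W n)) (z v : W n) : Prop :=
  ∃ γ : ℝ → W n, ContDiff ℝ ∞ γ ∧ (∀ r, γ r ∈ M) ∧ γ 0 = z ∧ HasDerivAt γ v 0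

/-- the derivative of `ψ` at `z` on the vector `v` -/
abbrev der {n : ℕ} (ψ : W n → W n) (z v : W n) : W n := fderiv ℝ ψ z v

/-- the derivative of `F` at `s` on the vector `v` -/
abbrev derF {n : ℕ} (F : E n → W n) (s v : E n) : W n := fderiv ℝ F s v

/-- `F : ℝⁿ → ℝⁿ⁺¹ × ℝⁿ⁺¹` is an injective smooth immersion -/
def IsInjImmersion {n : ℕ} (F : E n → W n) : Prop :=
  ContDiff ℝ ∞ F ∧ Injective F ∧ ∀ s v, derF F s v = 0 → v = 0

/-- `F` pulls back `dp ∧ dq` to zero -/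
def IsIsotropic {n : ℕ} (F : E n → W n) : Prop :=
  ∀ s v w, om (derF F s v) (derF F s w) = 0

/-- the image of `q` under the isometry `γ` -/
abbrev app {n : ℕ} (γ : Isom n) (q : E (n + 1)) : E (n + 1) := γ q

/-- the action of a linear isometry of `ℝⁿ⁺¹` on pairs -/
def act {n : ℕ} (γ : Isom n) (z : W n) : W n := (app γ z.1, app γ z.2)

/-- `F` maps open sets to relatively open subsets of `Λ` -/
def IsOpenInto {n : ℕ} (Λ : Set (W n)) (F : E n → W n) : Prop :=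
  ∀ V : Set (E n), IsOpen V → ∃ U, IsOpen U ∧ F '' V = Λ ∩ U

/-- `Λ` is the preimage in `TS n` of a nonempty compact Lagrangian submanifold without boundary of
`T*(Sⁿ / Γ)`: it is a nonempty compact subset of `TS n`, invariant under `Γ`, and every point `z` of `Λ` is
`F 0` for an injective smooth immersion `F : ℝⁿ → ℝⁿ⁺¹ × ℝⁿ⁺¹` which is open as a map to `Λ` and pulls
back `dp ∧ dq` to zero. -/
structure IsLagrangian {n : ℕ} (Γ : Subgroup (Isom n)) (Λ : Set (W n)) : Prop where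
  sub : Λ ⊆ TS n
  compact : IsCompact Λ
  nonempty : Λ.Nonempty
  inv : ∀ γ ∈ Γ, ∀ z ∈ Λ, act γ z ∈ Λ
  par : ∀ z ∈ Λ, ∃ F : E n → W n, F 0 = z ∧ IsInjImmersion F ∧ IsIsotropic F ∧ IsOpenInto Λ F

/-- the Lagrangian submanifold with the preimage `Λ` is exact: the form `p dq` on it is the differential
of (the function induced by) a smooth function `f` -/
def IsExact {n : ℕ} (Γ : Subgroup (Isom n)) (Λ : Set (W n)) : Prop :=
  ∃ f : W n → ℝ, ContDiff ℝ ∞ f ∧ (∀ γ ∈ Γ, ∀ z ∈ Λ, f (act γ z) = f z) ∧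
    ∀ z ∈ Λ, ∀ v, IsTangent Λ z v → fderiv ℝ f z v = ⟪z.2, v.1⟫

/-- The smooth functions `a`, `b` satisfy `a(x)² + x b(x)² = 1` for `x ≥ 0`. Then
`a(r²) = cos θ(r)`, `b(r²) = sin θ(r) / r` for an angle `θ(r)` depending smoothly on `r > 0`. -/
structure IsRotation (a b : ℝ → ℝ) : Prop where
  smooth_a : ContDiff ℝ ∞ a
  smooth_b : ContDiff ℝ ∞ b
  unit : ∀ x, 0 ≤ x → a x ^ 2 + x * b x ^ 2 = 1

/-- The map `(q, p) ↦ (cos θ q + sin θ p / |p|, |p| (-sin θ q + cos θ p / |p|))`, where the angle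
`θ = θ(|p|)` is given by `cos θ = a(|p|²)` and `sin θ = |p| b(|p|²)`. The point `q` moves by the distance
`|θ|` on the great circle with the direction `p`. -/
def rot (a b : ℝ → ℝ) {n : ℕ} (z : W n) : W n :=
  (a (‖z.2‖ ^ 2) • z.1 + b (‖z.2‖ ^ 2) • z.2,
    a (‖z.2‖ ^ 2) • z.2 - (‖z.2‖ ^ 2 * b (‖z.2‖ ^ 2)) • z.1)

/-- `(q, p) ↦ cos θ(|p|) q + sin θ(|p|) p / |p|` is an immersion of the manifold `Λ` into the sphere -/
def IsTransverse (a b : ℝ → ℝ) {n : ℕ} (Λ : Set (W n)) : Prop :=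
  ∀ z ∈ Λ, ∀ v, IsTangent Λ z v → (der (rot a b) z v).1 = 0 → v = 0

/-- The tangent planes of the manifold `Λ` are one-sided: for some `t ≠ 0` all tangent vectors `(δq, δp)`
of `Λ` with `δq ≠ 0` satisfy `|δq|² + t ⟪δq, δp⟫ > 0`. (Here `⟪δq, δp⟫` is also the scalar product of `δq`
with the covariant derivative of `p`.) -/
def IsOneSided {n : ℕ} (Λ : Set (W n)) : Prop :=
  ∃ t : ℝ, t ≠ 0 ∧ ∀ z ∈ Λ, ∀ v, IsTangent Λ z v → v.1 ≠ 0 → 0 < ‖v.1‖ ^ 2 + t * ⟪v.1, v.2⟫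

/-- `ψ` and `φ` are smooth, map `TS n` to itself, and are inverse to each other there -/
structure IsDiffeo {n : ℕ} (ψ φ : W n → W n) : Prop where
  smooth : ContDiff ℝ ∞ ψ
  smooth' : ContDiff ℝ ∞ φ
  maps : MapsTo ψ (TS n) (TS n)
  maps' : MapsTo φ (TS n) (TS n)
  left : ∀ z ∈ TS n, φ (ψ z) = z
  right : ∀ z ∈ TS n, ψ (φ z) = z

/-- `ψ` preserves the symplectic form of `TS n` -/
def PreservesForm {n : ℕ} (ψ : W n → W n) : Prop :=
  ∀ z ∈ TS n, ∀ a b, IsTangent (TS n) z a → IsTangent (TS n) z b →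
    om (der ψ z a) (der ψ z b) = om a b

/-- `ψ` commutes with the action of `Γ` on `TS n` -/
def Commutes {n : ℕ} (Γ : Subgroup (Isom n)) (ψ : W n → W n) : Prop :=
  ∀ γ ∈ Γ, ∀ z ∈ TS n, ψ (act γ z) = act γ (ψ z)

/-- the zero section -/
def zeroSection (n : ℕ) : Set (W n) := {z | ‖z.1‖ = 1 ∧ z.2 = 0}

/-- `Λ` is the image of the zero section of `T*(Sⁿ / Γ)` under a symplectic diffeomorphism `ψ` (with the
inverse `φ`), given by its lift, a diffeomorphism of `TS n` which commutes with `Γ` -/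
def IsImage {n : ℕ} (Γ : Subgroup (Isom n)) (Λ : Set (W n)) : Prop :=
  ∃ ψ φ : W n → W n, IsDiffeo ψ φ ∧ PreservesForm ψ ∧ Commutes Γ ψ ∧ ψ '' zeroSection n = Λ

end Pool.Agent.H75.SP
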