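import Pool.Agent.H75.SP.Graph

set_option autoImplicit false

open Set Function Filter Topology
open scoped ContDiff RealInnerProductSpace

noncomputable section

namespace Pool.Agent.H75.SP

variable {n : ℕ}

/-- the cutoff function -/
def cut (x : E (n + 1)) : ℝ := Real.smoothTransition (4 * ‖x‖ ^ 2 - 1)

lemma cut_smooth : ContDiff ℝ ∞ (cut : E (n + 1) → ℝ) :=
  Real.smoothTransition.contDiff.comp ((contDiff_const.mul (contDiff_norm_sq ℝ)).sub contDiff_const)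

lemma cut_zero : ∀ᶠ x in 𝓝 (0 : E (n + 1)), cut x = 0 := by
  have h1 : ∀ᶠ x in 𝓝 (0 : E (n + 1)), 4 * ‖x‖ ^ 2 - 1 < 0 := by
    have hc : Continuous fun x : E (n + 1) => 4 * ‖x‖ ^ 2 - 1 := by fun_prop
    exact hc.continuousAt.eventually_mem (isOpen_Iio.mem_nhds (by simp))
  filter_upwards [h1] with x hx
  exact Real.smoothTransition.zero_of_nonpos hx.le

lemma cut_one {q : E (n + 1)} (hq : ‖q‖ = 1) : ∀ᶠ x in 𝓝 q, cut x = 1 := by
  have h1 : ∀ᶠ x in 𝓝 q, 1 < 4 * ‖x‖ ^ 2 - 1 := by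
    have hc : Continuous fun x : E (n + 1) => 4 * ‖x‖ ^ 2 - 1 := by fun_prop
    exact hc.continuousAt.eventually_mem (isOpen_Ioi.mem_nhds (by rw [hq]; norm_num))
  filter_upwards [h1] with x hx
  exact Real.smoothTransition.one_of_one_le hx.le

lemma cut_inv (γ : Isom n) (x : E (n + 1)) : cut (γ x) = cut x := by
  simp [cut]

lemma unit_norm {x : E (n + 1)} (hx : x ≠ 0) : ‖(‖x‖⁻¹ • x)‖ = 1 := by
  rw [norm_smul, norm_inv, norm_norm, inv_mul_cancel₀ (norm_ne_zero_iff.2 hx)]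

/-- the submanifold is the graph of the differential of a function -/
theorem exists_gen {Γ : Subgroup (Isom n)} {Λ : Set (W n)} (hn : 1 ≤ n) (h : IsLagrangian Γ Λ)
    (hT : Tr Λ) {f : W n → ℝ} (hf : ContDiff ℝ ∞ f)
    (hfi : ∀ γ ∈ Γ, ∀ z ∈ Λ, f (act γ z) = f z)
    (hfd : ∀ z ∈ Λ, ∀ v, IsTangent Λ z v → fderiv ℝ f z v = ⟪z.2, v.1⟫) :
    ∃ g : E (n + 1) → ℝ, ContDiff ℝ ∞ g ∧ (∀ γ ∈ Γ, ∀ x, g (γ x) = g x) ∧
      ∀ q, ‖q‖ = 1 → ∃ p, (q, p) ∈ Λ ∧ fderiv ℝ g q = innerSL ℝ p := by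
  have hex : ∀ x : E (n + 1), ∃ w : W n, x ≠ 0 → w ∈ Λ ∧ w.1 = ‖x‖⁻¹ • x := by
    intro x
    by_cases hx : x = 0
    · exact ⟨0, fun h => absurd hx h⟩
    · obtain ⟨w, hw, hw1⟩ := surj hn h hT (‖x‖⁻¹ • x) (unit_norm hx)
      exact ⟨w, fun _ => ⟨hw, hw1⟩⟩
  choose pt hpt using hex
  have huniq : ∀ x, x ≠ 0 → ∀ w ∈ Λ, w.1 = ‖x‖⁻¹ • x → pt x = w := fun x hx w hw hw1 =>
    inj h hT hf hfd _ _ (hpt x hx).1 hw ((hpt x hx).2.trans hw1.symm)
  have hptn : ∀ x, x ≠ 0 → pt (‖x‖⁻¹ • x) = pt x := by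
    intro x hx
    have hx' : ‖x‖⁻¹ • x ≠ 0 := by
      intro h0
      have := unit_norm hx
      rw [h0, norm_zero] at this
      exact zero_ne_one this
    refine huniq _ hx' _ (hpt x hx).1 ?_
    rw [(hpt x hx).2, unit_norm hx, inv_one, one_smul]
  -- near a unit vector
  have hloc : ∀ q, ‖q‖ = 1 → ContDiffAt ℝ ∞ pt q ∧
      HasFDerivAt (fun x => f (pt x)) (innerSL ℝ (pt q).2) q := by
    intro q hq
    have hq0 : q ≠ 0 := by
      rintro rfl
      simp at hq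
    have hpq := hpt q hq0
    have hpq1 : (pt q).1 = q := by rw [hpq.2, hq, inv_one, one_smul]
    obtain ⟨F, σ, hF, hm, h0, hσ, hσ0, h1, h2⟩ := loc h hT hpq.1
    have hd := sec_deriv h.sub hf hfd hpq.1 hF hm h0 hσ hσ0 h1
    rw [hpq1] at hσ hσ0 h1 hd
    have hev : ∀ᶠ x in 𝓝 q, pt x = F (σ x) := by
      filter_upwards [h1, isOpen_ne.mem_nhds hq0] with x hx hx0
      exact huniq x hx0 _ (hm _) hx
    refine ⟨?_, hd.congr_of_eventuallyEq (hev.mono fun x hx => congrArg f hx)⟩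
    have h3 : ContDiffAt ℝ ∞ (fun x => F (σ x)) q := hF.contDiffAt.comp q hσ
    exact h3.congr_of_eventuallyEq hev
  have hsm : ∀ x, x ≠ 0 → ContDiffAt ℝ ∞ pt x := by
    intro x hx
    have h1 : ContDiffAt ℝ ∞ (fun y : E (n + 1) => ‖y‖⁻¹ • y) x :=
      ((contDiffAt_norm ℝ hx).inv (norm_ne_zero_iff.2 hx)).smul contDiffAt_id
    have h2 : ContDiffAt ℝ ∞ (fun y : E (n + 1) => pt (‖y‖⁻¹ • y)) x :=
      ContDiffAt.comp (f := fun y : E (n + 1) => ‖y‖⁻¹ • y) x (hloc _ (unit_norm hx)).1 h1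
    refine h2.congr_of_eventuallyEq ?_
    filter_upwards [isOpen_ne.mem_nhds hx] with y hy
    exact (hptn y hy).symm
  refine ⟨fun x => cut x * f (pt x), ?_, ?_, ?_⟩
  · rw [contDiff_iff_contDiffAt]
    intro x
    by_cases hx : x = 0
    · subst hx
      refine (contDiffAt_const (c := (0 : ℝ))).congr_of_eventuallyEq ?_
      filter_upwards [cut_zero] with y hy
      rw [hy, zero_mul]
    · exact cut_smooth.contDiffAt.mul (hf.contDiffAt.comp x (hsm x hx))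
  · intro γ hγ x
    show cut (γ x) * f (pt (γ x)) = cut x * f (pt x)
    rw [cut_inv]
    by_cases hx : x = 0
    · subst hx
      rw [map_zero]
    · have hγx : γ x ≠ 0 := by
        intro h0
        exact hx (by simpa using h0)
      have : pt (γ x) = act γ (pt x) := by
        refine huniq _ hγx _ (h.inv γ hγ _ (hpt x hx).1) ?_
        show γ (pt x).1 = _
        rw [(hpt x hx).2, map_smul, LinearIsometryEquiv.norm_map]
      rw [this, hfi γ hγ _ (hpt x hx).1]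
  · intro q hq
    have hq0 : q ≠ 0 := by
      rintro rfl
      simp at hq
    refine ⟨(pt q).2, ?_, ?_⟩
    · have h1 := (hpt q hq0).1
      have h2 : (pt q).1 = q := by rw [(hpt q hq0).2, hq, inv_one, one_smul]
      have h3 : (q, (pt q).2) = pt q := Prod.ext h2.symm rfl
      rw [h3]
      exact h1
    · refine (((hloc q hq).2).congr_of_eventuallyEq ?_).fderiv
      filter_upwards [cut_one hq] with x hx
      rw [hx, one_mul]

end Pool.Agent.H75.SP
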