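import Pool.Agent.H75.SP.Loc

set_option autoImplicit false

open Set Function Filter Topology
open scoped ContDiff RealInnerProductSpace

noncomputable section

namespace Pool.Agent.H75.SP

variable {n : ℕ}

/-- the projection to the sphere is surjective -/
theorem surj {Γ : Subgroup (Isom n)} {Λ : Set (W n)} (hn : 1 ≤ n) (h : IsLagrangian Γ Λ)
    (hT : Tr Λ) (q : E (n + 1)) (hq : ‖q‖ = 1) : ∃ w ∈ Λ, w.1 = q := by
  set A : Set (E (n + 1)) := Prod.fst '' Λ with hA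
  have hAc : IsClosed A := (h.compact.image continuous_fst).isClosed
  set U : Set (E (n + 1)) := {x | ∀ᶠ y in 𝓝 x, ‖y‖ = 1 → y ∈ A} with hU
  have hUo : IsOpen U := isOpen_setOfPred_eventually_nhds
  have hpc : IsPreconnected (Metric.sphere (0 : E (n + 1)) 1) := by
    apply isPreconnected_sphere
    rw [rank_eq_card_basis (EuclideanSpace.basisFun (Fin (n + 1)) ℝ).toBasis]
    simp
    exact_mod_cast hn
  have hAU : ∀ x ∈ A, x ∈ U := by
    rintro _ ⟨z, hz, rfl⟩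
    obtain ⟨F, σ, hF, hm, h0, hσ, hσ0, h1, h2⟩ := loc h hT hz
    show ∀ᶠ y in 𝓝 z.1, ‖y‖ = 1 → y ∈ A
    filter_upwards [h1] with y hy hy1
    refine ⟨F (σ y), hm _, ?_⟩
    rw [hy, hy1, inv_one, one_smul]
  have hUA : ∀ x, ‖x‖ = 1 → x ∈ U → x ∈ A := fun x hx hxU => (Eventually.self_of_nhds hxU) hx
  by_contra hcon
  have hqA : q ∉ A := by
    rintro ⟨w, hw, rfl⟩
    exact hcon ⟨w, hw, rfl⟩
  obtain ⟨z, hz⟩ := h.nonempty
  have hz1 : ‖z.1‖ = 1 := (h.sub hz).1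
  obtain ⟨x, hx1, hx2, hx3⟩ := hpc U Aᶜ hUo hAc.isOpen_compl (fun x _ => by
      by_cases hxA : x ∈ A
      · exact Or.inl (hAU x hxA)
      · exact Or.inr hxA)
    ⟨z.1, by simpa using hz1, hAU _ ⟨z, hz, rfl⟩⟩ ⟨q, by simpa using hq, hqA⟩
  exact hx3 (hUA x (by simpa using hx1) hx2)

/-- the derivative of `x ↦ x / |x|` at a unit vector -/
lemma fderiv_unit (q v : E (n + 1)) (hq : ‖q‖ = 1) :
    ContDiffAt ℝ ∞ (fun x : E (n + 1) => ‖x‖⁻¹ • x) q ∧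
    fderiv ℝ (fun x : E (n + 1) => ‖x‖⁻¹ • x) q v = v - ⟪q, v⟫ • q := by
  have hq0 : q ≠ 0 := by
    rintro rfl
    simp at hq
  have h1 : ContDiffAt ℝ ∞ (fun x : E (n + 1) => ‖x‖) q := contDiffAt_norm ℝ hq0
  have h2 : ContDiffAt ℝ ∞ (fun x : E (n + 1) => ‖x‖⁻¹) q := h1.inv (by rw [hq]; norm_num)
  have h3 : ContDiffAt ℝ ∞ (fun x : E (n + 1) => ‖x‖⁻¹ • x) q := h2.smul contDiffAt_id
  refine ⟨h3, ?_⟩
  -- derivative of the norm
  have h4 : HasFDerivAt (fun x : E (n + 1) => ‖x‖) (innerSL ℝ q) q := by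
    have h5 : HasFDerivAt (fun x : E (n + 1) => ‖x‖) (fderiv ℝ (fun x => ‖x‖) q) q :=
      (h1.differentiableAt (by simp)).hasFDerivAt
    have h6 : HasFDerivAt (fun x : E (n + 1) => ‖x‖ ^ 2) (2 • innerSL ℝ q) q :=
      (hasStrictFDerivAt_norm_sq q).hasFDerivAt
    have h7 := (h5.pow 2).unique h6
    refine h5.congr_fderiv ?_
    ext w
    have h8 := DFunLike.congr_fun h7 w
    simp [hq] at h8
    simpa using h8
  have h5 : HasFDerivAt (fun x : E (n + 1) => ‖x‖⁻¹ • x)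
      (‖q‖⁻¹ • ContinuousLinearMap.id ℝ _ +
        ((-(‖q‖ ^ 2)⁻¹) • innerSL ℝ q).smulRight q) q := by
    have h6 : HasFDerivAt (fun x : E (n + 1) => ‖x‖⁻¹) ((-(‖q‖ ^ 2)⁻¹) • innerSL ℝ q) q := by
      have := (hasDerivAt_inv (by rw [hq]; norm_num : ‖q‖ ≠ 0)).comp_hasFDerivAt q h4
      exact this
    exact h6.smul (hasFDerivAt_id q)
  rw [h5.fderiv]
  simp [hq]
  rw [sub_eq_add_neg]

/-- the derivative of a primitive along a local section -/
lemma sec_deriv {Λ : Set (W n)} (hsub : Λ ⊆ TS n) {f : W n → ℝ} (hf : ContDiff ℝ ∞ f)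
    (hfd : ∀ z ∈ Λ, ∀ v, IsTangent Λ z v → fderiv ℝ f z v = ⟪z.2, v.1⟫)
    {z : W n} (hz : z ∈ Λ) {F : E n → W n} {σ : E (n + 1) → E n} (hF : ContDiff ℝ ∞ F)
    (hm : ∀ s, F s ∈ Λ) (h0 : F 0 = z) (hσ : ContDiffAt ℝ ∞ σ z.1) (hσ0 : σ z.1 = 0)
    (h1 : ∀ᶠ x in 𝓝 z.1, (F (σ x)).1 = ‖x‖⁻¹ • x) :
    HasFDerivAt (fun x => f (F (σ x))) (innerSL ℝ z.2) z.1 := by
  have hz1 := (hsub hz).1
  have hz2 := (hsub hz).2
  have h2 : HasFDerivAt σ (fderiv ℝ σ z.1) z.1 := (hσ.differentiableAt (by simp)).hasFDerivAt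
  have h3 : HasFDerivAt F (fderiv ℝ F 0) (σ z.1) := by
    rw [hσ0]
    exact (hF.differentiable (by simp) 0).hasFDerivAt
  have h4 : HasFDerivAt (fun x => F (σ x)) ((fderiv ℝ F 0).comp (fderiv ℝ σ z.1)) z.1 :=
    h3.comp z.1 h2
  have h5 : HasFDerivAt f (fderiv ℝ f z) (F (σ z.1)) := by
    rw [hσ0, h0]
    exact (hf.differentiable (by simp) z).hasFDerivAt
  have h6 : HasFDerivAt (fun x => f (F (σ x)))
      ((fderiv ℝ f z).comp ((fderiv ℝ F 0).comp (fderiv ℝ σ z.1))) z.1 := h5.comp z.1 h4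
  refine h6.congr_fderiv ?_
  ext v
  have h7 : IsTangent Λ z (fderiv ℝ F 0 (fderiv ℝ σ z.1 v)) := by
    have := tangent_par hF hm (fderiv ℝ σ z.1 v)
    rwa [h0] at this
  have h8 := hfd z hz _ h7
  have h9 : (fderiv ℝ F 0 (fderiv ℝ σ z.1 v)).1 = v - ⟪z.1, v⟫ • z.1 := by
    have h10 : HasFDerivAt (fun x => (F (σ x)).1)
        ((ContinuousLinearMap.fst ℝ _ _).comp ((fderiv ℝ F 0).comp (fderiv ℝ σ z.1))) z.1 := h4.fst
    have h11 : HasFDerivAt (fun x : E (n + 1) => ‖x‖⁻¹ • x)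
        ((ContinuousLinearMap.fst ℝ _ _).comp ((fderiv ℝ F 0).comp (fderiv ℝ σ z.1))) z.1 :=
      h10.congr_of_eventuallyEq (h1.mono fun x hx => hx.symm)
    have h12 := (fderiv_unit z.1 v hz1).2
    rw [h11.fderiv] at h12
    exact h12
  simp only [ContinuousLinearMap.comp_apply, innerSL_apply_apply]
  rw [h8, h9, inner_sub_right, inner_smul_right, real_inner_comm z.1 z.2, hz2, mul_zero, sub_zero]

/-- the projection to the sphere is injective -/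
theorem inj {Γ : Subgroup (Isom n)} {Λ : Set (W n)} (h : IsLagrangian Γ Λ) (hT : Tr Λ)
    {f : W n → ℝ} (hf : ContDiff ℝ ∞ f)
    (hfd : ∀ z ∈ Λ, ∀ v, IsTangent Λ z v → fderiv ℝ f z v = ⟪z.2, v.1⟫)
    (w w' : W n) (hw : w ∈ Λ) (hw' : w' ∈ Λ) (he : w.1 = w'.1) : w = w' := by
  by_contra hne
  set D : Set (W n × W n) := {y | y.1 ∈ Λ ∧ y.2 ∈ Λ ∧ y.1.1 = y.2.1 ∧ y.1 ≠ y.2} with hD
  have hΛc : IsClosed Λ := h.compact.isClosed
  have hDc : IsClosed D := by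
    rw [isClosed_iff_frequently]
    intro y hy
    have hc : IsClosed {y : W n × W n | y.1 ∈ Λ ∧ y.2 ∈ Λ ∧ y.1.1 = y.2.1} := by
      have h1 : IsClosed {y : W n × W n | y.1 ∈ Λ} := hΛc.preimage continuous_fst
      have h2 : IsClosed {y : W n × W n | y.2 ∈ Λ} := hΛc.preimage continuous_snd
      have h3 : IsClosed {y : W n × W n | y.1.1 = y.2.1} :=
        isClosed_eq (by fun_prop) (by fun_prop)
      exact h1.inter (h2.inter h3)
    have hy' := isClosed_iff_frequently.1 hc y (hy.mono fun x hx => ⟨hx.1, hx.2.1, hx.2.2.1⟩)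
    refine ⟨hy'.1, hy'.2.1, hy'.2.2, fun heq => ?_⟩
    obtain ⟨F, σ, hF, hm, h0, hσ, hσ0, h1, h2⟩ := loc h hT hy'.1
    rw [eventually_nhdsWithin_iff] at h2
    have h3 : ∀ᶠ x in 𝓝 y, x.1 ∈ Λ → F (σ x.1.1) = x.1 :=
      (continuous_fst.tendsto y).eventually h2
    have h4 : ∀ᶠ x in 𝓝 y, x.2 ∈ Λ → F (σ x.2.1) = x.2 := by
      have : Tendsto (fun x : W n × W n => x.2) (𝓝 y) (𝓝 y.1) := by
        rw [heq]
        exact continuous_snd.tendsto y
      exact this.eventually h2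
    obtain ⟨x, hx, hx3, hx4⟩ := (hy.and_eventually (h3.and h4)).exists
    apply hx.2.2.2
    rw [← hx3 hx.1, ← hx4 hx.2.1, hx.2.2.1]
  have hDk : IsCompact D :=
    (h.compact.prod h.compact).of_isClosed_subset hDc fun y hy => ⟨hy.1, hy.2.1⟩
  obtain ⟨y, hyD, hymax⟩ := hDk.exists_isMaxOn ⟨(w, w'), hw, hw', he, hne⟩
    (f := fun y : W n × W n => f y.1 - f y.2)
    ((hf.continuous.comp continuous_fst).sub (hf.continuous.comp continuous_snd)).continuousOn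
  obtain ⟨hy1, hy2, hy3, hy4⟩ := hyD
  obtain ⟨F, σ, hF, hm, h0, hσ, hσ0, h1, h2⟩ := loc h hT hy1
  obtain ⟨F', σ', hF', hm', h0', hσ', hσ0', h1', h2'⟩ := loc h hT hy2
  have hd1 := sec_deriv h.sub hf hfd hy1 hF hm h0 hσ hσ0 h1
  have hd2 := sec_deriv h.sub hf hfd hy2 hF' hm' h0' hσ' hσ0' h1'
  rw [← hy3] at hd2 hσ' hσ0' h1'
  have hmax : IsLocalMax (fun x => f (F (σ x)) - f (F' (σ' x))) y.1.1 := by
    have hne' : ∀ᶠ x in 𝓝 y.1.1, F (σ x) ≠ F' (σ' x) := by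
      have c1 : ContinuousAt (fun x => F (σ x)) y.1.1 :=
        hF.continuous.continuousAt.comp hσ.continuousAt
      have c2 : ContinuousAt (fun x => F' (σ' x)) y.1.1 :=
        hF'.continuous.continuousAt.comp hσ'.continuousAt
      have c3 : ContinuousAt (fun x => (F (σ x), F' (σ' x))) y.1.1 := c1.prodMk c2
      have ho : IsOpen {u : W n × W n | u.1 ≠ u.2} := isOpen_ne_fun continuous_fst continuous_snd
      refine c3.eventually_mem (ho.mem_nhds ?_)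
      show F (σ y.1.1) ≠ F' (σ' y.1.1)
      rw [hσ0, hσ0', h0, h0']
      exact hy4
    filter_upwards [h1, h1', hne'] with x hx hx' hxne
    have := hymax (show (F (σ x), F' (σ' x)) ∈ D from
      ⟨hm _, hm' _, by rw [hx, hx'], hxne⟩)
    simp only at this
    show f (F (σ x)) - f (F' (σ' x)) ≤ f (F (σ y.1.1)) - f (F' (σ' y.1.1))
    rw [hσ0, hσ0', h0, h0']
    exact this
  have hz := hmax.hasFDerivAt_eq_zero (hd1.sub hd2)
  have h3 := DFunLike.congr_fun hz (y.1.2 - y.2.2)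
  simp only [sub_apply, innerSL_apply_apply, zero_apply] at h3
  rw [← inner_sub_left] at h3
  have h4 : y.1.2 - y.2.2 = 0 := inner_self_eq_zero.1 h3
  exact hy4 (Prod.ext hy3 (sub_eq_zero.1 h4))

end Pool.Agent.H75.SP
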