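import Pool.Agent.H75.SP.Defs

set_option autoImplicit false

open Set Function Filter Topology
open scoped ContDiff RealInnerProductSpace

noncomputable section

namespace Pool.Agent.H75.SP

variable {n : ℕ}

/-- transversality to the fibres -/
def Tr (Λ : Set (W n)) : Prop := ∀ z ∈ Λ, ∀ v, IsTangent Λ z v → v.1 = 0 → v = 0

lemma par_mem {Λ : Set (W n)} {F : E n → W n}
    (h : ∀ V : Set (E n), IsOpen V → ∃ U, IsOpen U ∧ F '' V = Λ ∩ U) (s : E n) : F s ∈ Λ := by
  obtain ⟨U, _, hU⟩ := h univ isOpen_univ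
  have : F s ∈ F '' univ := mem_image_of_mem _ (mem_univ s)
  rw [hU] at this
  exact this.1

lemma tangent_par {Λ : Set (W n)} {F : E n → W n} (hF : ContDiff ℝ ∞ F) (hm : ∀ s, F s ∈ Λ)
    (v : E n) : IsTangent Λ (F 0) (fderiv ℝ F 0 v) := by
  refine ⟨fun r => F (r • v), hF.comp (contDiff_id.smul contDiff_const), fun r => hm _, by simp, ?_⟩
  have h1 : HasDerivAt (fun r : ℝ => r • v) v 0 := by
    simpa using (hasDerivAt_id (0 : ℝ)).smul_const v
  have h2 : HasFDerivAt F (fderiv ℝ F 0) ((0 : ℝ) • v) := by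
    rw [zero_smul]
    exact (hF.differentiable (by simp) 0).hasFDerivAt
  exact h2.comp_hasDerivAt (0 : ℝ) h1

lemma inner_sphere_deriv {F : E n → W n} (hF : ContDiff ℝ ∞ F) (hm : ∀ s, F s ∈ TS n) (s v : E n) :
    ⟪(F s).1, (fderiv ℝ F s v).1⟫ = 0 := by
  have h1 : HasFDerivAt F (fderiv ℝ F s) s := (hF.differentiable (by simp) s).hasFDerivAt
  have h2 : HasFDerivAt (fun s => (F s).1) ((ContinuousLinearMap.fst ℝ _ _).comp (fderiv ℝ F s)) s :=
    h1.fst
  have h3 := h2.inner ℝ h2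
  have h4 : (fun s => ⟪(F s).1, (F s).1⟫) = fun _ => (1 : ℝ) := by
    funext t
    rw [real_inner_self_eq_norm_sq, (hm t).1]
    norm_num
  rw [h4] at h3
  have h5 := h3.unique (hasFDerivAt_const (1 : ℝ) s)
  have h6 := DFunLike.congr_fun h5 v
  simp only [ContinuousLinearMap.comp_apply, ContinuousLinearMap.prod_apply,
    fderivInnerCLM_apply, ContinuousLinearMap.coe_fst', zero_apply] at h6
  rw [real_inner_comm ((F s).1)] at h6
  linarith

/-- local structure of a Lagrangian submanifold which is transverse to the fibres -/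
theorem loc {Γ : Subgroup (Isom n)} {Λ : Set (W n)} (h : IsLagrangian Γ Λ) (hT : Tr Λ)
    {z : W n} (hz : z ∈ Λ) :
    ∃ (F : E n → W n) (σ : E (n + 1) → E n), ContDiff ℝ ∞ F ∧ (∀ s, F s ∈ Λ) ∧ F 0 = z ∧
      ContDiffAt ℝ ∞ σ z.1 ∧ σ z.1 = 0 ∧
      (∀ᶠ x in 𝓝 z.1, (F (σ x)).1 = ‖x‖⁻¹ • x) ∧ (∀ᶠ w in 𝓝[Λ] z, F (σ w.1) = w) := by
  obtain ⟨F, h0, ⟨hF, hinj, himm⟩, _, hop⟩ := h.par z hz
  have hm : ∀ s, F s ∈ Λ := par_mem hop
  set G : E n × ℝ → E (n + 1) := fun y => y.2 • (F y.1).1 with hGdef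
  have hG : ContDiff ℝ ∞ G := contDiff_snd.smul (hF.comp contDiff_fst).fst
  have hz1 : ‖z.1‖ = 1 := (h.sub hz).1
  -- the derivative
  set L : (E n × ℝ) →L[ℝ] E (n + 1) :=
    ((ContinuousLinearMap.fst ℝ _ _).comp (fderiv ℝ F 0)).comp (ContinuousLinearMap.fst ℝ _ _) +
      (ContinuousLinearMap.snd ℝ (E n) ℝ).smulRight z.1 with hL
  have hGL : HasFDerivAt G L (0, 1) := by
    have h1 : HasFDerivAt (fun y : E n × ℝ => (F y.1).1)
        (((ContinuousLinearMap.fst ℝ _ _).comp (fderiv ℝ F 0)).comp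
          (ContinuousLinearMap.fst ℝ _ _)) (0, 1) := by
      have h2 : HasFDerivAt F (fderiv ℝ F 0) ((0 : E n), (1 : ℝ)).1 :=
        (hF.differentiable (by simp) 0).hasFDerivAt
      exact (h2.comp ((0 : E n), (1 : ℝ)) hasFDerivAt_fst).fst
    have h2 := (hasFDerivAt_snd (𝕜 := ℝ) (p := ((0 : E n), (1 : ℝ)))).smul h1
    refine h2.congr_fderiv ?_
    ext y
    · simp [L]
    · simp [L, h0]
  have hLinj : Injective L := by
    rw [injective_iff_map_eq_zero]
    rintro ⟨v, t⟩ hv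
    have hv' : (fderiv ℝ F 0 v).1 + t • z.1 = 0 := by simpa [L] using hv
    have h1 : ⟪z.1, (fderiv ℝ F 0 v).1⟫ = 0 := by
      have := inner_sphere_deriv hF (fun s => h.sub (hm s)) 0 v
      rwa [h0] at this
    have h2 : t = 0 := by
      have h3 := congrArg (fun y => ⟪z.1, y⟫) hv'
      simp only [inner_add_right, inner_smul_right, inner_zero_right] at h3
      rw [h1, real_inner_self_eq_norm_sq, hz1] at h3
      linarith
    rw [h2, zero_smul, add_zero] at hv'
    have h4 := hT z hz (fderiv ℝ F 0 v) (by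
      have := tangent_par hF hm v
      rwa [h0] at this) hv'
    have h5 := himm 0 v h4
    rw [h5, h2]
    rfl
  have hfin : Module.finrank ℝ (E n × ℝ) = Module.finrank ℝ (E (n + 1)) := by
    simp [Module.finrank_prod]
  set e : (E n × ℝ) ≃L[ℝ] E (n + 1) :=
    (LinearMap.linearEquivOfInjective (L : (E n × ℝ) →ₗ[ℝ] E (n + 1)) hLinj
      hfin).toContinuousLinearEquiv with he
  have heL : (e : (E n × ℝ) →L[ℝ] E (n + 1)) = L := by
    ext y <;> rfl
  have hGe : HasFDerivAt G (e : (E n × ℝ) →L[ℝ] E (n + 1)) (0, 1) := by rw [heL]; exact hGL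
  have hG01 : G (0, 1) = z.1 := by simp [G, h0]
  have hGc : ContDiffAt ℝ ∞ G (0, 1) := hG.contDiffAt
  set I := hGc.localInverse hGe (by simp) with hI
  have hIc : ContDiffAt ℝ ∞ I z.1 := by
    have := hGc.to_localInverse hGe (by simp)
    rwa [hG01] at this
  have hst := hGc.hasStrictFDerivAt' hGe (by simp)
  have hr : ∀ᶠ x in 𝓝 z.1, G (I x) = x := by
    have := hst.eventually_right_inverse
    rwa [hG01] at this
  have hl : ∀ᶠ y in 𝓝 ((0 : E n), (1 : ℝ)), I (G y) = y := hst.eventually_left_inverse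
  have hI0 : I z.1 = (0, 1) := by
    have := hl.self_of_nhds
    rwa [hG01] at this
  refine ⟨F, fun x => (I x).1, hF, hm, h0, hIc.fst, by show (I z.1).1 = 0; rw [hI0], ?_, ?_⟩
  · have hpos : ∀ᶠ x in 𝓝 z.1, 0 < (I x).2 := by
      have hc : ContinuousAt (fun x => (I x).2) z.1 := hIc.continuousAt.snd
      have : (0 : ℝ) < (I z.1).2 := by rw [hI0]; norm_num
      exact hc.eventually_mem (isOpen_Ioi.mem_nhds this)
    filter_upwards [hr, hpos] with x hx hx2
    have h1 : (I x).2 • (F (I x).1).1 = x := hx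
    have h2 : ‖x‖ = (I x).2 := by
      conv_lhs => rw [← h1]
      rw [norm_smul, (h.sub (hm _)).1, mul_one, Real.norm_of_nonneg hx2.le]
    show (F (I x).1).1 = ‖x‖⁻¹ • x
    rw [h2]
    have h3 := congrArg (fun y => (I x).2⁻¹ • y) h1
    simp only [smul_smul, inv_mul_cancel₀ hx2.ne', one_smul] at h3
    exact h3
  · have h1 : ∀ᶠ s in 𝓝 (0 : E n), (I ((F s).1)).1 = s := by
      have hc : Tendsto (fun s : E n => (s, (1 : ℝ))) (𝓝 0) (𝓝 (0, 1)) :=
        (continuous_id.prodMk continuous_const).tendsto' _ _ rfl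
      filter_upwards [hc.eventually hl] with s hs
      have : G (s, 1) = (F s).1 := by simp [G]
      rw [this] at hs
      rw [hs]
    obtain ⟨V, hV, hVo, hV0⟩ := eventually_nhds_iff.1 h1
    obtain ⟨U, hU, hFU⟩ := hop V hVo
    have hzU : z ∈ U := by
      have : F 0 ∈ F '' V := mem_image_of_mem _ hV0
      rw [hFU, h0] at this
      exact this.2
    filter_upwards [self_mem_nhdsWithin, mem_nhdsWithin_of_mem_nhds (hU.mem_nhds hzU)] with w hw hwU
    have : w ∈ F '' V := by rw [hFU]; exact ⟨hw, hwU⟩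
    obtain ⟨s, hs, rfl⟩ := this
    show F (I (F s).1).1 = F s
    rw [hV s hs]

end Pool.Agent.H75.SP
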