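import Pool.Agent.H75.SP.Defs

set_option autoImplicit false

open Set Function Filter Topology
open scoped ContDiff RealInnerProductSpace

noncomputable section

namespace Pool.Agent.H75.SP

variable {n : ℕ}

lemma tangent_map {M M' : Set (W n)} {ψ : W n → W n} (hψ : ContDiff ℝ ∞ ψ) (hm : MapsTo ψ M M')
    {z v : W n} (h : IsTangent M z v) : IsTangent M' (ψ z) (fderiv ℝ ψ z v) := by
  obtain ⟨γ, h1, h2, h3, h4⟩ := h
  refine ⟨fun r => ψ (γ r), hψ.comp h1, fun r => hm (h2 r), congrArg ψ h3, ?_⟩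
  have h5 : HasFDerivAt ψ (fderiv ℝ ψ z) (γ 0) := by
    rw [h3]
    exact (hψ.differentiable (by simp) z).hasFDerivAt
  exact h5.comp_hasDerivAt (0 : ℝ) h4

/-- two smooth maps which agree on a set have the same derivative on tangent vectors -/
lemma tangent_congr {M : Set (W n)} {ψ φ : W n → W n} (hψ : ContDiff ℝ ∞ ψ) (hφ : ContDiff ℝ ∞ φ)
    (he : ∀ z ∈ M, ψ z = φ z) {z v : W n} (h : IsTangent M z v) :
    fderiv ℝ ψ z v = fderiv ℝ φ z v := by
  obtain ⟨γ, h1, h2, h3, h4⟩ := h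
  have h5 : HasFDerivAt ψ (fderiv ℝ ψ z) (γ 0) := by
    rw [h3]
    exact (hψ.differentiable (by simp) z).hasFDerivAt
  have h6 : HasFDerivAt φ (fderiv ℝ φ z) (γ 0) := by
    rw [h3]
    exact (hφ.differentiable (by simp) z).hasFDerivAt
  have h7 := h5.comp_hasDerivAt (0 : ℝ) h4
  have h8 := h6.comp_hasDerivAt (0 : ℝ) h4
  have h9 : ψ ∘ γ = φ ∘ γ := by
    funext r
    exact he _ (h2 r)
  rw [h9] at h7
  exact h7.unique h8

lemma tangent_sphere {z v : W n} (h : IsTangent (TS n) z v) :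
    ⟪z.1, v.1⟫ = 0 ∧ ⟪v.1, z.2⟫ + ⟪z.1, v.2⟫ = 0 := by
  obtain ⟨γ, h1, h2, h3, h4⟩ := h
  have h5 : HasDerivAt (fun r => (γ r).1) v.1 0 := h4.fst
  have h6 : HasDerivAt (fun r => (γ r).2) v.2 0 := h4.snd
  constructor
  · have h7 := h5.inner ℝ h5
    have h8 : (fun r => ⟪(γ r).1, (γ r).1⟫) = fun _ => (1 : ℝ) := by
      funext r
      rw [real_inner_self_eq_norm_sq, (h2 r).1]
      norm_num
    rw [h8, h3] at h7
    have h9 := h7.unique (hasDerivAt_const (0 : ℝ) (1 : ℝ))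
    rw [real_inner_comm z.1] at h9
    linarith
  · have h7 := h5.inner ℝ h6
    have h8 : (fun r => ⟪(γ r).1, (γ r).2⟫) = fun _ => (0 : ℝ) := by
      funext r
      exact (h2 r).2
    rw [h8, h3] at h7
    have h9 := h7.unique (hasDerivAt_const (0 : ℝ) (0 : ℝ))
    linarith

section rotation

variable {a b : ℝ → ℝ}

lemma IsRotation.neg (h : IsRotation a b) : IsRotation a (fun x => -b x) :=
  ⟨h.smooth_a, h.smooth_b.neg, fun x hx => by rw [neg_sq]; exact h.unit x hx⟩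

lemma rot_smooth (h : IsRotation a b) : ContDiff ℝ ∞ (rot a b : W n → W n) := by
  have h0 : ContDiff ℝ ∞ (fun z : W n => ‖z.2‖ ^ 2) := (contDiff_norm_sq ℝ).comp contDiff_snd
  have h1 : ContDiff ℝ ∞ (fun z : W n => a (‖z.2‖ ^ 2)) := h.smooth_a.comp h0
  have h2 : ContDiff ℝ ∞ (fun z : W n => b (‖z.2‖ ^ 2)) := h.smooth_b.comp h0
  exact ((h1.smul contDiff_fst).add (h2.smul contDiff_snd)).prodMk
    ((h1.smul contDiff_snd).sub ((h0.mul h2).smul contDiff_fst))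

lemma rot_norm (h : IsRotation a b) {z : W n} (hz : z ∈ TS n) :
    ‖(rot a b z).1‖ = 1 ∧ ⟪(rot a b z).1, (rot a b z).2⟫ = 0 ∧ ‖(rot a b z).2‖ ^ 2 = ‖z.2‖ ^ 2 := by
  obtain ⟨hz1, hz2⟩ := hz
  have hq : ⟪z.1, z.1⟫ = 1 := by rw [real_inner_self_eq_norm_sq, hz1]; norm_num
  have hp : ⟪z.2, z.2⟫ = ‖z.2‖ ^ 2 := real_inner_self_eq_norm_sq _
  have hz3 : ⟪z.2, z.1⟫ = 0 := by rw [real_inner_comm]; exact hz2
  have hu := h.unit (‖z.2‖ ^ 2) (by positivity)
  set x := ‖z.2‖ ^ 2 with hx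
  refine ⟨?_, ?_, ?_⟩
  · have h1 : ‖(rot a b z).1‖ ^ 2 = 1 := by
      rw [← real_inner_self_eq_norm_sq]
      simp only [rot, ← hx, inner_add_left, inner_add_right, inner_smul_left, inner_smul_right, hq,
        hp, hz2, hz3, RCLike.conj_to_real]
      linear_combination hu
    have h2 : (‖(rot a b z).1‖ - 1) * (‖(rot a b z).1‖ + 1) = 0 := by linear_combination h1
    rcases mul_eq_zero.1 h2 with h3 | h3
    · linarith
    · have := norm_nonneg (rot a b z).1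
      linarith
  · simp only [rot, ← hx, inner_add_left, inner_sub_right, inner_smul_left, inner_smul_right, hq,
        hp, hz2, hz3, RCLike.conj_to_real]
    ring
  · rw [← real_inner_self_eq_norm_sq]
    simp only [rot, ← hx, inner_sub_left, inner_sub_right, inner_smul_left, inner_smul_right, hq,
        hp, hz2, hz3, RCLike.conj_to_real]
    linear_combination x * hu

lemma rot_mem (h : IsRotation a b) : MapsTo (rot a b) (TS n) (TS n) := fun _ hz =>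
  ⟨(rot_norm h hz).1, (rot_norm h hz).2.1⟩

lemma rot_inv (h : IsRotation a b) {z : W n} (hz : z ∈ TS n) :
    rot a (fun x => -b x) (rot a b z) = z := by
  have hx := (rot_norm h hz).2.2
  have hu := h.unit (‖z.2‖ ^ 2) (by positivity)
  unfold rot at hx ⊢
  simp only [hx]
  set x := ‖z.2‖ ^ 2
  refine Prod.ext ?_ ?_
  · simp only
    have : a x • (a x • z.1 + b x • z.2) + -b x • (a x • z.2 - (x * b x) • z.1) =
        (a x ^ 2 + x * b x ^ 2) • z.1 := by module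
    rw [this, hu, one_smul]
  · simp only
    have : a x • (a x • z.2 - (x * b x) • z.1) - (x * -b x) • (a x • z.1 + b x • z.2) =
        (a x ^ 2 + x * b x ^ 2) • z.2 := by module
    rw [this, hu, one_smul]

lemma rot_inv' (h : IsRotation a b) {z : W n} (hz : z ∈ TS n) :
    rot a b (rot a (fun x => -b x) z) = z := by
  have := rot_inv h.neg hz
  simpa using this

lemma rot_act (γ : Isom n) (z : W n) : rot a b (act γ z) = act γ (rot a b z) := by
  simp [rot, act, map_add, map_sub, map_smul]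

/-- the derivative of a rotation -/
lemma rot_deriv (h : IsRotation a b) (z v : W n) :
    fderiv ℝ (rot a b) z v =
      (a (‖z.2‖ ^ 2) • v.1 + b (‖z.2‖ ^ 2) • v.2 +
        (2 * ⟪z.2, v.2⟫) • (deriv a (‖z.2‖ ^ 2) • z.1 + deriv b (‖z.2‖ ^ 2) • z.2),
       a (‖z.2‖ ^ 2) • v.2 - (‖z.2‖ ^ 2 * b (‖z.2‖ ^ 2)) • v.1 +
        (2 * ⟪z.2, v.2⟫) • (deriv a (‖z.2‖ ^ 2) • z.2 -
          (b (‖z.2‖ ^ 2) + ‖z.2‖ ^ 2 * deriv b (‖z.2‖ ^ 2)) • z.1)) := by
  -- along the line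
  have hl : HasDerivAt (fun t : ℝ => z + t • v) v 0 := by
    have := ((hasDerivAt_id (0 : ℝ)).smul_const v).const_add z
    simpa using this
  have h1 : HasDerivAt (fun t : ℝ => (z + t • v).1) v.1 0 := hl.fst
  have h2 : HasDerivAt (fun t : ℝ => (z + t • v).2) v.2 0 := hl.snd
  have h3 : HasDerivAt (fun t : ℝ => ‖(z + t • v).2‖ ^ 2) (2 * ⟪z.2, v.2⟫) 0 := by
    have := h2.norm_sq
    simpa using this
  have e0 : (z + (0 : ℝ) • v) = z := by simp
  have h4 : HasDerivAt (fun t : ℝ => a (‖(z + t • v).2‖ ^ 2))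
      (deriv a (‖z.2‖ ^ 2) * (2 * ⟪z.2, v.2⟫)) 0 := by
    have h5 : HasDerivAt a (deriv a (‖z.2‖ ^ 2)) ((fun t : ℝ => ‖(z + t • v).2‖ ^ 2) 0) := by
      simp only [e0]
      exact (h.smooth_a.differentiable (by simp) _).hasDerivAt
    exact h5.comp (0 : ℝ) h3
  have h5 : HasDerivAt (fun t : ℝ => b (‖(z + t • v).2‖ ^ 2))
      (deriv b (‖z.2‖ ^ 2) * (2 * ⟪z.2, v.2⟫)) 0 := by
    have h5 : HasDerivAt b (deriv b (‖z.2‖ ^ 2)) ((fun t : ℝ => ‖(z + t • v).2‖ ^ 2) 0) := by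
      simp only [e0]
      exact (h.smooth_b.differentiable (by simp) _).hasDerivAt
    exact h5.comp (0 : ℝ) h3
  have h6 : HasDerivAt (fun t : ℝ => rot a b (z + t • v)) (fderiv ℝ (rot a b) z v) 0 := by
    have h7 : HasFDerivAt (rot a b) (fderiv ℝ (rot a b) z) (z + (0 : ℝ) • v) := by
      rw [e0]
      exact ((rot_smooth h).differentiable (by simp) z).hasFDerivAt
    exact h7.comp_hasDerivAt (0 : ℝ) hl
  refine h6.unique ?_
  have h8 := ((h4.smul h1).add (h5.smul h2)).prodMk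
    ((h4.smul h2).sub ((h3.mul h5).smul h1))
  have h9 : (fun t : ℝ => rot a b (z + t • v)) = fun t : ℝ =>
      (a (‖(z + t • v).2‖ ^ 2) • (z + t • v).1 + b (‖(z + t • v).2‖ ^ 2) • (z + t • v).2,
        a (‖(z + t • v).2‖ ^ 2) • (z + t • v).2 -
          (‖(z + t • v).2‖ ^ 2 * b (‖(z + t • v).2‖ ^ 2)) • (z + t • v).1) := rfl
  rw [h9]
  refine h8.congr_deriv ?_
  simp only [e0, Pi.mul_apply]
  refine Prod.ext ?_ ?_
  · simp only
    module
  · simp only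
    module

/-- the derivative of `a² + x b² = 1` -/
lemma rot_unit_deriv (h : IsRotation a b) {x : ℝ} (hx : 0 ≤ x) :
    2 * a x * deriv a x + b x ^ 2 + 2 * x * b x * deriv b x = 0 := by
  have h1 : HasDerivAt a (deriv a x) x := (h.smooth_a.differentiable (by simp) x).hasDerivAt
  have h2 : HasDerivAt b (deriv b x) x := (h.smooth_b.differentiable (by simp) x).hasDerivAt
  have h3 := (h1.pow 2).add ((hasDerivAt_id x).mul (h2.pow 2))
  have h4 : HasDerivWithinAt (fun x => a x ^ 2 + x * b x ^ 2) 0 (Ici x) x := by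
    refine (hasDerivWithinAt_const x (Ici x) (1 : ℝ)).congr (fun y hy => ?_) ?_
    · exact h.unit y (hx.trans hy)
    · exact h.unit x hx
  have h5 := (uniqueDiffWithinAt_Ici x).eq_deriv _ (h3.hasDerivWithinAt (s := Ici x)) h4
  simp at h5
  linarith

/-- the function with `rot^* (p dq) = p dq + d K(|p|²)` has the derivative `kap` -/
def kap (a b : ℝ → ℝ) (x : ℝ) : ℝ := a x * b x / 2 + x * (a x * deriv b x - deriv a x * b x)

lemma rot_liouville (h : IsRotation a b) {z v : W n} (hz : z ∈ TS n)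
    (hv : ⟪z.1, v.1⟫ = 0 ∧ ⟪v.1, z.2⟫ + ⟪z.1, v.2⟫ = 0) :
    ⟪(rot a b z).2, (fderiv ℝ (rot a b) z v).1⟫ =
      ⟪z.2, v.1⟫ + kap a b (‖z.2‖ ^ 2) * (2 * ⟪z.2, v.2⟫) := by
  rw [rot_deriv h]
  obtain ⟨hz1, hz2⟩ := hz
  obtain ⟨hv1, hv2⟩ := hv
  have hq : ⟪z.1, z.1⟫ = 1 := by rw [real_inner_self_eq_norm_sq, hz1]; norm_num
  have hp : ⟪z.2, z.2⟫ = ‖z.2‖ ^ 2 := real_inner_self_eq_norm_sq _
  have hz3 : ⟪z.2, z.1⟫ = 0 := by rw [real_inner_comm]; exact hz2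
  have hv3 : ⟪z.1, v.2⟫ = -⟪z.2, v.1⟫ := by rw [real_inner_comm] at hv2; linarith
  have hu := h.unit (‖z.2‖ ^ 2) (by positivity)
  unfold rot kap
  set x := ‖z.2‖ ^ 2
  simp only [inner_add_right, inner_sub_left, inner_smul_left, inner_smul_right, hq, hp, hz2, hz3,
    hv1, hv3, RCLike.conj_to_real]
  linear_combination ⟪z.2, v.1⟫ * hu

lemma rot_om (h : IsRotation a b) {z v w : W n} (hz : z ∈ TS n)
    (hv : ⟪z.1, v.1⟫ = 0 ∧ ⟪v.1, z.2⟫ + ⟪z.1, v.2⟫ = 0)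
    (hw : ⟪z.1, w.1⟫ = 0 ∧ ⟪w.1, z.2⟫ + ⟪z.1, w.2⟫ = 0) :
    om (fderiv ℝ (rot a b) z v) (fderiv ℝ (rot a b) z w) = om v w := by
  rw [rot_deriv h, rot_deriv h]
  obtain ⟨hz1, hz2⟩ := hz
  obtain ⟨hv1, hv2⟩ := hv
  obtain ⟨hw1, hw2⟩ := hw
  have hq : ⟪z.1, z.1⟫ = 1 := by rw [real_inner_self_eq_norm_sq, hz1]; norm_num
  have hp : ⟪z.2, z.2⟫ = ‖z.2‖ ^ 2 := real_inner_self_eq_norm_sq _
  have hz3 : ⟪z.2, z.1⟫ = 0 := by rw [real_inner_comm]; exact hz2
  have hv3 : ⟪z.1, v.2⟫ = -⟪z.2, v.1⟫ := by rw [real_inner_comm] at hv2; linarith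
  have hw3 : ⟪z.1, w.2⟫ = -⟪z.2, w.1⟫ := by rw [real_inner_comm] at hw2; linarith
  have hu := h.unit (‖z.2‖ ^ 2) (by positivity)
  have hd := rot_unit_deriv h (x := ‖z.2‖ ^ 2) (by positivity)
  unfold om
  set x := ‖z.2‖ ^ 2
  simp only [inner_add_right, inner_add_left, inner_sub_left, inner_smul_left,
    inner_smul_right, hq, hp, hz2, hz3, hv1, hv3, hw1, hw3, RCLike.conj_to_real,
    real_inner_comm z.1 v.1, real_inner_comm z.1 v.2, real_inner_comm z.1 w.1,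
    real_inner_comm z.1 w.2, real_inner_comm z.2 v.1, real_inner_comm z.2 v.2,
    real_inner_comm z.2 w.1, real_inner_comm z.2 w.2, real_inner_comm v.1 w.1,
    real_inner_comm v.1 w.2, real_inner_comm v.2 w.1, real_inner_comm v.2 w.2]
  linear_combination (⟪v.2, w.1⟫ - ⟪v.1, w.2⟫) * hu - 2 * ⟪z.2, w.2⟫ * ⟪z.2, v.1⟫ * hd +
    2 * ⟪z.2, v.2⟫ * ⟪z.2, w.1⟫ * hd

end rotation

end Pool.Agent.H75.SP
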