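import Pool.Agent.H75.SP.Gen
import Pool.Agent.H75.SP.Rot

set_option autoImplicit false

open Set Function Filter Topology
open scoped ContDiff RealInnerProductSpace

noncomputable section

namespace Pool.Agent.H75.SP

variable {n : ℕ}

/-- the gradient -/
def gra (g : E (n + 1) → ℝ) (x : E (n + 1)) : E (n + 1) :=
  (InnerProductSpace.toDual ℝ (E (n + 1))).symm (fderiv ℝ g x)

lemma gra_inner (g : E (n + 1) → ℝ) (x v : E (n + 1)) : ⟪gra g x, v⟫ = fderiv ℝ g x v := by
  unfold gra
  exact InnerProductSpace.toDual_symm_apply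

lemma gra_smooth {g : E (n + 1) → ℝ} (hg : ContDiff ℝ ∞ g) : ContDiff ℝ ∞ (gra g) :=
  (LinearIsometryEquiv.contDiff _).comp (hg.fderiv_right (by simp))

lemma gra_symm {g : E (n + 1) → ℝ} (hg : ContDiff ℝ ∞ g) (x u w : E (n + 1)) :
    ⟪fderiv ℝ (gra g) x u, w⟫ = ⟪fderiv ℝ (gra g) x w, u⟫ := by
  have hD : ContDiff ℝ ∞ (fderiv ℝ g) := hg.fderiv_right (by simp)
  have h1 : ∀ u w, ⟪fderiv ℝ (gra g) x u, w⟫ = fderiv ℝ (fderiv ℝ g) x u w := by
    intro u w
    have h2 : HasFDerivAt (gra g) (fderiv ℝ (gra g) x) x :=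
      ((gra_smooth hg).differentiable (by simp) x).hasFDerivAt
    have h3 := h2.inner ℝ (hasFDerivAt_const w x)
    have h4 : (fun y => ⟪gra g y, w⟫) = fun y => fderiv ℝ g y w := by
      funext y
      exact gra_inner g y w
    rw [h4] at h3
    have h5 : HasFDerivAt (fun y => fderiv ℝ g y w) ((fderiv ℝ (fderiv ℝ g) x).flip w) x := by
      have := ((hD.differentiable (by simp) x).hasFDerivAt).clm_apply (hasFDerivAt_const w x)
      simpa using this
    have h6 := DFunLike.congr_fun (h3.unique h5) u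
    simpa using h6
  rw [h1, h1]
  exact (hg.contDiffAt.isSymmSndFDerivAt (by
    rw [minSmoothness_of_isRCLikeNormedField]; exact WithTop.coe_le_coe.2 (le_top : (2 : ℕ∞) ≤ ⊤))) u w

/-- the map `(q, p) ↦ (q, p + grad g(q))` -/
def shear (g : E (n + 1) → ℝ) (z : W n) : W n := (z.1, z.2 + gra g z.1)

/-- the map `(q, p) ↦ (q, p - grad g(q))` -/
def shear' (g : E (n + 1) → ℝ) (z : W n) : W n := (z.1, z.2 - gra g z.1)

lemma shear_smooth {g : E (n + 1) → ℝ} (hg : ContDiff ℝ ∞ g) : ContDiff ℝ ∞ (shear g) :=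
  contDiff_fst.prodMk (contDiff_snd.add ((gra_smooth hg).comp contDiff_fst))

lemma shear'_smooth {g : E (n + 1) → ℝ} (hg : ContDiff ℝ ∞ g) : ContDiff ℝ ∞ (shear' g) :=
  contDiff_fst.prodMk (contDiff_snd.sub ((gra_smooth hg).comp contDiff_fst))

lemma shear_om {g : E (n + 1) → ℝ} (hg : ContDiff ℝ ∞ g) (z v w : W n) :
    om (fderiv ℝ (shear g) z v) (fderiv ℝ (shear g) z w) = om v w := by
  have h1 : ∀ v, fderiv ℝ (shear g) z v = (v.1, v.2 + fderiv ℝ (gra g) z.1 v.1) := by
    intro v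
    have h2 : HasFDerivAt (gra g) (fderiv ℝ (gra g) z.1) z.1 :=
      ((gra_smooth hg).differentiable (by simp) z.1).hasFDerivAt
    have h3 : HasFDerivAt (shear g) ((ContinuousLinearMap.fst ℝ _ _).prod
        (ContinuousLinearMap.snd ℝ _ _ +
          (fderiv ℝ (gra g) z.1).comp (ContinuousLinearMap.fst ℝ _ _))) z :=
      hasFDerivAt_fst.prodMk (hasFDerivAt_snd.add (h2.comp z hasFDerivAt_fst))
    rw [h3.fderiv]
    rfl
  rw [h1, h1]
  unfold om
  simp only [inner_add_left]
  rw [gra_symm hg z.1 v.1 w.1]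
  ring

/-- a primitive of `kap` -/
lemma exists_prim {a b : ℝ → ℝ} (h : IsRotation a b) :
    ∃ k : ℝ → ℝ, ContDiff ℝ ∞ k ∧ ∀ x, HasDerivAt k (kap a b x) x := by
  have ha' : ContDiff ℝ ∞ (deriv a) := (contDiff_infty_iff_deriv.1 h.smooth_a).2
  have hb' : ContDiff ℝ ∞ (deriv b) := (contDiff_infty_iff_deriv.1 h.smooth_b).2
  have hk : ContDiff ℝ ∞ (kap a b) := by
    unfold kap
    exact ((h.smooth_a.mul h.smooth_b).div_const 2).add
      (contDiff_id.mul ((h.smooth_a.mul hb').sub (ha'.mul h.smooth_b)))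
  have hd : ∀ x, HasDerivAt (fun x => ∫ t in (0 : ℝ)..x, kap a b t) (kap a b x) x := fun x =>
    intervalIntegral.integral_hasDerivAt_right (hk.continuous.intervalIntegrable _ _)
      (hk.continuous.stronglyMeasurableAtFilter _ _) hk.continuous.continuousAt
  refine ⟨fun x => ∫ t in (0 : ℝ)..x, kap a b t, ?_, hd⟩
  rw [contDiff_infty_iff_deriv]
  refine ⟨fun x => (hd x).differentiableAt, ?_⟩
  have : deriv (fun x => ∫ t in (0 : ℝ)..x, kap a b t) = kap a b := funext fun x => (hd x).deriv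
  rw [this]
  exact hk

/-- The main theorem. -/
theorem main (hn : 1 ≤ n) {Γ : Subgroup (Isom n)} {Λ : Set (W n)} (h : IsLagrangian Γ Λ)
    (hE : IsExact Γ Λ) {a b : ℝ → ℝ} (hab : IsRotation a b) (hT : IsTransverse a b Λ) :
    IsImage Γ Λ := by
  obtain ⟨f, hf, hfi, hfd⟩ := hE
  set R : W n → W n := rot a b with hR
  set R' : W n → W n := rot a (fun x => -b x) with hR'
  have hRs : ContDiff ℝ ∞ R := rot_smooth hab
  have hRs' : ContDiff ℝ ∞ R' := rot_smooth hab.neg
  have hRm : MapsTo R (TS n) (TS n) := rot_mem hab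
  have hRm' : MapsTo R' (TS n) (TS n) := rot_mem hab.neg
  have hRR : ∀ z ∈ TS n, R' (R z) = z := fun z hz => rot_inv hab hz
  have hRR' : ∀ z ∈ TS n, R (R' z) = z := fun z hz => rot_inv' hab hz
  set Λ' : Set (W n) := R '' Λ with hΛ'
  have hsub' : Λ' ⊆ TS n := by
    rintro _ ⟨z, hz, rfl⟩
    exact hRm (h.sub hz)
  have hback : MapsTo R' Λ' Λ := by
    rintro _ ⟨z, hz, rfl⟩
    rw [hRR z (h.sub hz)]
    exact hz
  have hback2 : ∀ w ∈ Λ', R (R' w) = w := fun w hw => hRR' w (hsub' hw)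
  -- the derivative of `R` is injective on tangent vectors
  have hRinj : ∀ z v, IsTangent Λ z v → fderiv ℝ R' (R z) (fderiv ℝ R z v) = v := by
    intro z v hv
    have hv' : IsTangent (TS n) z v := by
      obtain ⟨γ, h1, h2, h3, h4⟩ := hv
      exact ⟨γ, h1, fun r => h.sub (h2 r), h3, h4⟩
    have h1 := tangent_congr (hRs'.comp hRs) contDiff_id (fun z hz => hRR z hz) hv'
    have h2 : HasFDerivAt (R' ∘ R) ((fderiv ℝ R' (R z)).comp (fderiv ℝ R z)) z :=
      ((hRs'.differentiable (by simp) _).hasFDerivAt).comp z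
        ((hRs.differentiable (by simp) z).hasFDerivAt)
    rw [h2.fderiv, fderiv_id] at h1
    exact h1
  have hL' : IsLagrangian Γ Λ' := by
    refine ⟨hsub', h.compact.image hRs.continuous, h.nonempty.image _, ?_, ?_⟩
    · rintro γ hγ _ ⟨z, hz, rfl⟩
      rw [hR, ← rot_act]
      exact ⟨_, h.inv γ hγ z hz, rfl⟩
    · rintro _ ⟨z, hz, rfl⟩
      obtain ⟨F, h0, ⟨hF, hinj, himm⟩, hiso, hop⟩ := h.par z hz
      have hm : ∀ s, F s ∈ Λ := par_mem hop
      have htan : ∀ s v, IsTangent Λ (F s) (fderiv ℝ F s v) := by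
        intro s v
        refine ⟨fun r => F (s + r • v), hF.comp (contDiff_const.add
          (contDiff_id.smul contDiff_const)), fun r => hm _, by simp, ?_⟩
        have h1 : HasDerivAt (fun r : ℝ => s + r • v) v 0 := by
          simpa using ((hasDerivAt_id (0 : ℝ)).smul_const v).const_add s
        have h2 : HasFDerivAt F (fderiv ℝ F s) (s + (0 : ℝ) • v) := by
          rw [zero_smul, add_zero]
          exact (hF.differentiable (by simp) s).hasFDerivAt
        exact h2.comp_hasDerivAt (0 : ℝ) h1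
      have hder : ∀ s v, fderiv ℝ (fun s => R (F s)) s v = fderiv ℝ R (F s) (fderiv ℝ F s v) := by
        intro s v
        have h2 : HasFDerivAt (fun s => R (F s)) ((fderiv ℝ R (F s)).comp (fderiv ℝ F s)) s :=
          ((hRs.differentiable (by simp) _).hasFDerivAt).comp s
            ((hF.differentiable (by simp) s).hasFDerivAt)
        rw [h2.fderiv]
        rfl
      refine ⟨fun s => R (F s), congrArg R h0, ⟨hRs.comp hF, ?_, ?_⟩, ?_, ?_⟩
      · intro s t hst
        apply hinj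
        have := congrArg R' hst
        simp only at this
        rwa [hRR _ (h.sub (hm s)), hRR _ (h.sub (hm t))] at this
      · intro s v hv
        apply himm s v
        have hv' : fderiv ℝ (fun s => R (F s)) s v = 0 := hv
        rw [hder] at hv'
        show fderiv ℝ F s v = 0
        rw [← hRinj (F s) _ (htan s v), hv', map_zero]
      · intro s v w
        show om (fderiv ℝ (fun s => R (F s)) s v) (fderiv ℝ (fun s => R (F s)) s w) = 0
        rw [hder, hder]
        have hsub2 : ∀ v, ⟪(F s).1, (fderiv ℝ F s v).1⟫ = 0 ∧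
            ⟪(fderiv ℝ F s v).1, (F s).2⟫ + ⟪(F s).1, (fderiv ℝ F s v).2⟫ = 0 := by
          intro v
          obtain ⟨γ, h1, h2, h3, h4⟩ := htan s v
          exact tangent_sphere ⟨γ, h1, fun r => h.sub (h2 r), h3, h4⟩
        rw [rot_om hab (h.sub (hm s)) (hsub2 v) (hsub2 w)]
        exact hiso s v w
      · intro V hV
        obtain ⟨U, hU, hFU⟩ := hop V hV
        refine ⟨R' ⁻¹' U, hU.preimage hRs'.continuous, ?_⟩
        ext w
        constructor
        · rintro ⟨s, hs, rfl⟩
          have h1 : F s ∈ Λ ∩ U := by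
            rw [← hFU]
            exact ⟨s, hs, rfl⟩
          refine ⟨⟨F s, h1.1, rfl⟩, ?_⟩
          show R' (R (F s)) ∈ U
          rw [hRR _ (h.sub h1.1)]
          exact h1.2
        · rintro ⟨⟨z, hz, rfl⟩, hw⟩
          have hw' : R' (R z) ∈ U := hw
          rw [hRR _ (h.sub hz)] at hw'
          have h1 : z ∈ F '' V := by
            rw [hFU]
            exact ⟨hz, hw'⟩
          obtain ⟨s, hs, rfl⟩ := h1
          exact ⟨s, hs, rfl⟩
  -- tangent vectors of `Λ'`
  have htan' : ∀ w v, IsTangent Λ' w v → IsTangent Λ (R' w) (fderiv ℝ R' w v) ∧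
      fderiv ℝ R (R' w) (fderiv ℝ R' w v) = v := by
    intro w v hv
    refine ⟨tangent_map hRs' hback hv, ?_⟩
    have h1 := tangent_congr (hRs.comp hRs') contDiff_id hback2 hv
    have h2 : HasFDerivAt (R ∘ R') ((fderiv ℝ R (R' w)).comp (fderiv ℝ R' w)) w :=
      ((hRs.differentiable (by simp) _).hasFDerivAt).comp w
        ((hRs'.differentiable (by simp) w).hasFDerivAt)
    rw [h2.fderiv, fderiv_id] at h1
    exact h1
  have hT' : Tr Λ' := by
    intro w hw v hv hv1
    obtain ⟨h1, h2⟩ := htan' w v hv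
    have h3 := hT (R' w) (hback hw) _ h1 (by
      show (fderiv ℝ R (R' w) (fderiv ℝ R' w v)).1 = 0
      rw [h2]
      exact hv1)
    rw [← h2, h3, map_zero]
  -- the primitive
  obtain ⟨k, hk, hkd⟩ := exists_prim hab
  set K : W n → ℝ := fun z => k (‖z.2‖ ^ 2) with hK
  have hKs : ContDiff ℝ ∞ K := hk.comp ((contDiff_norm_sq ℝ).comp contDiff_snd)
  have hKd : ∀ z v, fderiv ℝ K z v = kap a b (‖z.2‖ ^ 2) * (2 * ⟪z.2, v.2⟫) := by
    intro z v
    have h1 : HasFDerivAt (fun z : W n => ‖z.2‖ ^ 2)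
        ((2 • innerSL ℝ z.2).comp (ContinuousLinearMap.snd ℝ _ _)) z :=
      ((hasStrictFDerivAt_norm_sq z.2).hasFDerivAt).comp z hasFDerivAt_snd
    have h2 := (hkd (‖z.2‖ ^ 2)).comp_hasFDerivAt z h1
    have h3 : HasFDerivAt K (kap a b (‖z.2‖ ^ 2) •
      (2 • innerSL ℝ z.2).comp (ContinuousLinearMap.snd ℝ _ _)) z := h2
    rw [h3.fderiv]
    simp
  set f' : W n → ℝ := fun w => f (R' w) + K (R' w) with hf'
  have hf's : ContDiff ℝ ∞ f' := (hf.comp hRs').add (hKs.comp hRs')
  have hf'i : ∀ γ ∈ Γ, ∀ z ∈ Λ', f' (act γ z) = f' z := by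
    intro γ hγ z hz
    simp only [hf', hR']
    rw [rot_act, ← hR', hfi γ hγ _ (hback hz)]
    simp [hK, act]
  have hf'd : ∀ z ∈ Λ', ∀ v, IsTangent Λ' z v → fderiv ℝ f' z v = ⟪z.2, v.1⟫ := by
    intro w hw v hv
    obtain ⟨h1, h2⟩ := htan' w v hv
    have h3 : HasFDerivAt f' ((fderiv ℝ f (R' w)).comp (fderiv ℝ R' w) +
        (fderiv ℝ K (R' w)).comp (fderiv ℝ R' w)) w := by
      have hR'd := (hRs'.differentiable (by simp) w).hasFDerivAt
      exact (((hf.differentiable (by simp) _).hasFDerivAt).comp w hR'd).add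
        (((hKs.differentiable (by simp) _).hasFDerivAt).comp w hR'd)
    rw [h3.fderiv]
    simp only [add_apply, ContinuousLinearMap.comp_apply]
    rw [hfd _ (hback hw) _ h1, hKd]
    have h4 : IsTangent (TS n) (R' w) (fderiv ℝ R' w v) := by
      obtain ⟨γ, g1, g2, g3, g4⟩ := h1
      exact ⟨γ, g1, fun r => h.sub (g2 r), g3, g4⟩
    rw [← rot_liouville hab (h.sub (hback hw)) (tangent_sphere h4), ← hR, h2, hback2 w hw]
  obtain ⟨g, hg, hgi, hgq⟩ := exists_gen hn hL' hT' hf's hf'i hf'd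
  have hgp : ∀ q, ‖q‖ = 1 → (q, gra g q) ∈ Λ' := by
    intro q hq
    obtain ⟨p, hp, hpd⟩ := hgq q hq
    have : gra g q = p := by
      apply ext_inner_right ℝ
      intro v
      rw [gra_inner, hpd]
      rfl
    rw [this]
    exact hp
  have hgperp : ∀ q, ‖q‖ = 1 → ⟪q, gra g q⟫ = 0 := fun q hq => (hsub' (hgp q hq)).2
  have hgact : ∀ γ ∈ Γ, ∀ x, gra g (γ x) = γ (gra g x) := by
    intro γ hγ x
    apply ext_inner_right ℝ
    intro v
    obtain ⟨u, rfl⟩ := γ.surjective v
    rw [gra_inner, LinearIsometryEquiv.inner_map_map, gra_inner]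
    have h1 : HasFDerivAt (fun x => g (γ x))
        ((fderiv ℝ g (γ x)).comp (γ.toContinuousLinearEquiv : E (n + 1) →L[ℝ] E (n + 1))) x :=
      ((hg.differentiable (by simp) _).hasFDerivAt).comp x
        (γ.toContinuousLinearEquiv.hasFDerivAt)
    have h2 : (fun x => g (γ x)) = g := funext fun x => hgi γ hγ x
    rw [h2] at h1
    rw [h1.fderiv]
    rfl
  have hsm : MapsTo (shear g) (TS n) (TS n) := by
    rintro z ⟨h1, h2⟩
    refine ⟨h1, ?_⟩
    show ⟪z.1, z.2 + gra g z.1⟫ = 0
    rw [inner_add_right, h2, hgperp _ h1, add_zero]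
  have hsm' : MapsTo (shear' g) (TS n) (TS n) := by
    rintro z ⟨h1, h2⟩
    refine ⟨h1, ?_⟩
    show ⟪z.1, z.2 - gra g z.1⟫ = 0
    rw [inner_sub_right, h2, hgperp _ h1, sub_zero]
  have hss : ∀ z, shear' g (shear g z) = z := fun z => by simp [shear, shear']
  have hss' : ∀ z, shear g (shear' g z) = z := fun z => by simp [shear, shear']
  refine ⟨fun z => R' (shear g z), fun z => shear' g (R z), ⟨hRs'.comp (shear_smooth hg),
    (shear'_smooth hg).comp hRs, hRm'.comp hsm, hsm'.comp hRm, ?_, ?_⟩, ?_, ?_, ?_⟩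
  · intro z hz
    show shear' g (R (R' (shear g z))) = z
    rw [hRR' _ (hsm hz), hss]
  · intro z hz
    show R' (shear g (shear' g (R z))) = z
    rw [hss', hRR z hz]
  · intro z hz v w hv hw
    have hder : ∀ v, fderiv ℝ (fun z => R' (shear g z)) z v =
        fderiv ℝ R' (shear g z) (fderiv ℝ (shear g) z v) := by
      intro v
      have h2 : HasFDerivAt (fun z => R' (shear g z))
          ((fderiv ℝ R' (shear g z)).comp (fderiv ℝ (shear g) z)) z :=
        ((hRs'.differentiable (by simp) _).hasFDerivAt).comp z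
          (((shear_smooth hg).differentiable (by simp) z).hasFDerivAt)
      rw [h2.fderiv]
      rfl
    show om (fderiv ℝ (fun z => R' (shear g z)) z v) (fderiv ℝ (fun z => R' (shear g z)) z w) =
      om v w
    rw [hder, hder, rot_om hab.neg (hsm hz)
      (tangent_sphere (tangent_map (shear_smooth hg) hsm hv))
      (tangent_sphere (tangent_map (shear_smooth hg) hsm hw)), shear_om hg]
  · intro γ hγ z hz
    show R' (shear g (act γ z)) = act γ (R' (shear g z))
    have : shear g (act γ z) = act γ (shear g z) := by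
      simp [shear, act, hgact γ hγ]
    rw [this, hR', rot_act]
  · ext w
    constructor
    · rintro ⟨z, ⟨hz1, hz2⟩, rfl⟩
      have h1 : shear g z ∈ Λ' := by
        have : shear g z = (z.1, gra g z.1) := by simp [shear, hz2]
        rw [this]
        exact hgp _ hz1
      exact hback h1
    · intro hw
      have h1 : R w ∈ Λ' := ⟨w, hw, rfl⟩
      have h2 : ‖(R w).1‖ = 1 := (hsub' h1).1
      have h3 : R w = ((R w).1, gra g (R w).1) :=
        inj hL' hT' hf's hf'd _ _ h1 (hgp _ h2) rfl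
      refine ⟨((R w).1, 0), ⟨h2, rfl⟩, ?_⟩
      have h4 : shear g ((R w).1, 0) = R w := by
        rw [h3]
        simp [shear]
      show R' (shear g ((R w).1, 0)) = w
      rw [h4, hRR _ (h.sub hw)]

end Pool.Agent.H75.SP
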