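import Pool.Agent.H75.SP.Main

set_option autoImplicit false

open Set Function Filter Topology
open scoped ContDiff RealInnerProductSpace

noncomputable section

namespace Pool.Agent.H75.SP

variable {n : ℕ}

/-- the function `1 + t² x`, changed for `x < 0` so that it is positive -/
def den (t x : ℝ) : ℝ := 1 + t ^ 2 * x * (1 - Real.smoothTransition (-(2 * t ^ 2 * x)))

lemma den_smooth (t : ℝ) : ContDiff ℝ ∞ (den t) := by
  unfold den
  have h1 : ContDiff ℝ ∞ fun x : ℝ => t ^ 2 * x := contDiff_const.mul contDiff_id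
  have h2 : ContDiff ℝ ∞ fun x : ℝ => -(2 * t ^ 2 * x) := (contDiff_const.mul contDiff_id).neg
  exact contDiff_const.add (h1.mul (contDiff_const.sub (Real.smoothTransition.contDiff.comp h2)))

lemma den_eq (t : ℝ) {x : ℝ} (hx : 0 ≤ x) : den t x = 1 + t ^ 2 * x := by
  unfold den
  rw [Real.smoothTransition.zero_of_nonpos (by
    have : 0 ≤ 2 * t ^ 2 * x := by positivity
    linarith)]
  ring

lemma den_pos (t x : ℝ) : 0 < den t x := by
  rcases le_total 0 x with hx | hx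
  · rw [den_eq t hx]
    positivity
  · unfold den
    set y := t ^ 2 * x with hy
    have hy0 : y ≤ 0 := mul_nonpos_of_nonneg_of_nonpos (by positivity) hx
    have h2 : -(2 * t ^ 2 * x) = -(2 * y) := by rw [hy]; ring
    rw [h2]
    have h3 := Real.smoothTransition.nonneg (-(2 * y))
    have h4 := Real.smoothTransition.le_one (-(2 * y))
    rcases le_total (-(1 / 2)) y with h5 | h5
    · nlinarith
    · rw [Real.smoothTransition.one_of_one_le (by linarith)]
      norm_num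

/-- the cosine of the angle `arctan (t r)` as a function of `x = r²` -/
def gno (t x : ℝ) : ℝ := (Real.sqrt (den t x))⁻¹

lemma gno_smooth (t : ℝ) : ContDiff ℝ ∞ (gno t) :=
  ((den_smooth t).sqrt fun x => (den_pos t x).ne').inv fun x => (Real.sqrt_pos.2 (den_pos t x)).ne'

lemma gno_pos (t x : ℝ) : 0 < gno t x := inv_pos.2 (Real.sqrt_pos.2 (den_pos t x))

lemma gno_rot (t : ℝ) : IsRotation (gno t) (fun x => t * gno t x) := by
  refine ⟨gno_smooth t, contDiff_const.mul (gno_smooth t), fun x hx => ?_⟩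
  have h1 : gno t x ^ 2 = (1 + t ^ 2 * x)⁻¹ := by
    unfold gno
    rw [inv_pow, Real.sq_sqrt (den_pos t x).le, den_eq t hx]
  have h2 : (0 : ℝ) < 1 + t ^ 2 * x := by positivity
  have h3 : gno t x ^ 2 + x * (t * gno t x) ^ 2 = gno t x ^ 2 * (1 + t ^ 2 * x) := by ring
  rw [h3, h1, inv_mul_cancel₀ h2.ne']

theorem transverse_of_oneSided {Λ : Set (W n)} (hsub : Λ ⊆ TS n) {t : ℝ} (ht : t ≠ 0)
    (h : ∀ z ∈ Λ, ∀ v, IsTangent Λ z v → v.1 ≠ 0 → 0 < ‖v.1‖ ^ 2 + t * ⟪v.1, v.2⟫) :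
    IsTransverse (gno t) (fun x => t * gno t x) Λ := by
  intro z hz v hv hv0
  have hv' : IsTangent (TS n) z v := by
    obtain ⟨γ, g1, g2, g3, g4⟩ := hv
    exact ⟨γ, g1, fun r => hsub (g2 r), g3, g4⟩
  obtain ⟨c1, c2⟩ := tangent_sphere hv'
  obtain ⟨hz1, hz2⟩ := hsub hz
  have hv0 : (fderiv ℝ (rot (gno t) (fun x => t * gno t x)) z v).1 = 0 := hv0
  rw [rot_deriv (gno_rot t)] at hv0
  have hdb : ∀ x, deriv (fun x => t * gno t x) x = t * deriv (gno t) x := fun x =>
    (((gno_smooth t).differentiable (by simp) x).hasDerivAt.const_mul t).deriv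
  simp only [hdb] at hv0
  set x := ‖z.2‖ ^ 2
  set A := gno t x with hA
  have hApos : 0 < A := gno_pos t x
  set c := 2 * ⟪z.2, v.2⟫ * deriv (gno t) x with hc
  have h0 : A • (v.1 + t • v.2) + c • (z.1 + t • z.2) = 0 := by
    rw [← hv0, hc]
    module
  have e1 := congrArg (fun y => ⟪z.1, y⟫) h0
  have e2 := congrArg (fun y => ⟪v.1, y⟫) h0
  simp only [inner_add_right, inner_smul_right, inner_zero_right] at e1 e2
  have hq : ⟪z.1, z.1⟫ = 1 := by rw [real_inner_self_eq_norm_sq, hz1]; norm_num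
  have hvv : ⟪v.1, v.1⟫ = ‖v.1‖ ^ 2 := real_inner_self_eq_norm_sq _
  have c3 : ⟪v.1, z.1⟫ = 0 := by rw [real_inner_comm]; exact c1
  rw [c1, hq, hz2] at e1
  rw [hvv, c3] at e2
  have c4 : ⟪z.1, v.2⟫ = -⟪v.1, z.2⟫ := by linarith
  rw [c4] at e1
  have hcA : c = A * t * ⟪v.1, z.2⟫ := by linear_combination e1
  have h3 : A * (‖v.1‖ ^ 2 + t * ⟪v.1, v.2⟫ + (t * ⟪v.1, z.2⟫) ^ 2) = 0 := by
    rw [hcA] at e2
    linear_combination e2
  have h4 : ‖v.1‖ ^ 2 + t * ⟪v.1, v.2⟫ + (t * ⟪v.1, z.2⟫) ^ 2 = 0 := by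
    rcases mul_eq_zero.1 h3 with h | h
    · exact absurd h hApos.ne'
    · exact h
  have h5 : v.1 = 0 := by
    by_contra hne
    have := h z hz v hv hne
    have h6 : 0 ≤ (t * ⟪v.1, z.2⟫) ^ 2 := sq_nonneg _
    linarith
  have h6 : c = 0 := by rw [hcA, h5, inner_zero_left, mul_zero]
  rw [h6, h5, zero_smul, add_zero, zero_add, smul_smul] at h0
  have h7 : v.2 = 0 := by
    rcases smul_eq_zero.1 h0 with h | h
    · exact absurd h (mul_ne_zero hApos.ne' ht)
    · exact h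
  exact Prod.ext h5 h7

theorem main_oneSided (hn : 1 ≤ n) {Γ : Subgroup (Isom n)} {Λ : Set (W n)} (h : IsLagrangian Γ Λ)
    (hE : IsExact Γ Λ) (hs : IsOneSided Λ) : IsImage Γ Λ := by
  obtain ⟨t, ht, hs⟩ := hs
  exact main hn h hE (gno_rot t) (transverse_of_oneSided h.sub ht hs)

end Pool.Agent.H75.SP
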